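import Pool.Agent.helper19.MX.SpecC

set_option linter.unusedVariables false

namespace MX

open Pool.Agent.helper53.AU AN
open scoped Classical Topology IntermediateField

noncomputable section

instance LEX_charLS : CharP (LS kk) 2 := by
  haveI : CharP kk 2 := charP_of_injective_algebraMap (algebraMap (ZMod 2) kk).injective 2
  exact charP_of_injective_algebraMap (algebraMap kk (LS kk)).injective 2

instance LEX_charOm : CharP Om 2 := charP_of_injective_algebraMap (algebraMap (LS kk) Om).injective 2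

theorem LEX_th : mp (algebraMap (ZMod 2) kk) (thL : LS (ZMod 2)) = mono (-3) 1 := by
  have h1 : (thL : LS (ZMod 2)) * mono 3 1 = 1 := by
    have h2 : (thL : LS (ZMod 2)) = (sv⁻¹) ^ 3 := rfl
    have h3 : sv * sv * sv = mono 3 (1 : ZMod 2) := by
      show mono 1 (1 : ZMod 2) * mono 1 1 * mono 1 1 = mono 3 1
      rw [mono_mul_mono, mono_mul_mono]
      norm_num
    have hs : sv ≠ 0 := by
      intro h
      have h4 : cf sv 1 = 0 := by rw [h]; rfl
      have h5 : cf sv 1 = 1 := by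
        show cf (mono 1 (1 : ZMod 2)) 1 = 1
        rw [cf_mono, if_pos rfl]
      rw [h5] at h4
      exact one_ne_zero h4
    rw [h2, ← h3]
    field_simp
  have h2 : mp (algebraMap (ZMod 2) kk) (thL : LS (ZMod 2)) * mono 3 1 = 1 := by
    have h3 := congrArg (mp (algebraMap (ZMod 2) kk)) h1
    rw [map_mul, map_one, mp_mono, map_one] at h3
    exact h3
  have h3 : (mono (-3) (1 : kk)) * mono 3 1 = 1 := by
    rw [mono_mul_mono]
    norm_num
    rfl
  have h4 : mono 3 (1 : kk) ≠ 0 := by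
    intro h
    rw [h, mul_zero] at h3
    exact zero_ne_one h3
  exact mul_right_cancel₀ h4 (h2.trans h3.symm)

theorem LEX_two (e a b : Om) (h : a ^ 2 + a = b ^ 2 + b) : a = b ∨ a = b + 1 := by
  have h2 : (2 : Om) = 0 := CharTwo.two_eq_zero
  have h3 : (a - b) * (a - b - 1) = 0 := by
    linear_combination h + (-a + b + b ^ 2 - a * b) * h2
  rcases mul_eq_zero.1 h3 with h4 | h4
  · exact Or.inl (sub_eq_zero.1 h4)
  · refine Or.inr ?_
    linear_combination h4

/-- the automorphism which moves the root -/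
theorem LEX_rho (hLA2 : LA2_stmt) (ys : Om)
    (hys : ys ^ 2 + ys = algebraMap (LS kk) Om (mono (-3) 1)) :
    ∃ ρ : Om ≃ₐ[LS kk] Om, ρ ys = ys + 1 := by
  set p : Polynomial (LS kk) := Polynomial.X ^ 2 + Polynomial.X + Polynomial.C (mono (-3) 1) with hp
  have hdeg : p.natDegree = 2 := by
    rw [hp]; compute_degree!
  have hmon : p.Monic := by
    rw [hp]; monicity!
  have hirr : Irreducible p := by
    rw [hmon.irreducible_iff_roots_eq_zero_of_degree_le_three (by rw [hdeg]) (by rw [hdeg]; norm_num)]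
    rw [Multiset.eq_zero_iff_forall_notMem]
    intro z hz
    have h1 : p.IsRoot z := Polynomial.isRoot_of_mem_roots hz
    have h2 : z ^ 2 + z + mono (-3) 1 = 0 := by
      have h3 := h1
      rw [Polynomial.IsRoot.def, hp] at h3
      simpa using h3
    have h4 : z ^ 2 + z = mono (-3) 1 := by
      have h5 : (2 : LS kk) = 0 := CharTwo.two_eq_zero
      linear_combination h2 - mono (-3) 1 * h5
    exact hLA2 z h4
  have h2 : (2 : Om) = 0 := CharTwo.two_eq_zero
  have hr : ∀ y : Om, y ^ 2 + y = algebraMap (LS kk) Om (mono (-3) 1) →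
      minpoly (LS kk) y = p := by
    intro y hy
    refine (minpoly.eq_of_irreducible_of_monic hirr ?_ hmon).symm
    rw [hp]
    simp only [map_add, map_pow, Polynomial.aeval_X, Polynomial.aeval_C]
    rw [hy]
    linear_combination (algebraMap (LS kk) Om (mono (-3) 1)) * h2
  have h3 : IsConjRoot (LS kk) (ys + 1) ys := by
    unfold IsConjRoot
    rw [hr ys hys, hr (ys + 1)]
    rw [← hys]
    linear_combination (ys + 1) * h2
  exact isConjRoot_iff_exists_algEquiv.1 h3

theorem LEX (hLA1 : LA1_stmt) (hLA2 : LA2_stmt) : LEX_stmt := by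
  have hiO : iO thL = algebraMap (LS kk) Om (mono (-3) 1) := by
    show algebraMap (LS kk) Om (mp (algebraMap (ZMod 2) kk) (thL : LS (ZMod 2))) = _
    rw [LEX_th]
  have h2 : (2 : Om) = 0 := CharTwo.two_eq_zero
  obtain ⟨ys, hys⟩ : ∃ ys : Om, ys ^ 2 + ys = iO thL := by
    have hd : (Polynomial.X ^ 2 + Polynomial.X + Polynomial.C (iO thL) : Polynomial Om).degree ≠ 0 := by
      have : (Polynomial.X ^ 2 + Polynomial.X + Polynomial.C (iO thL) : Polynomial Om).degree = 2 := by
        compute_degree!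
      rw [this]
      norm_num
    obtain ⟨y, hy⟩ := IsAlgClosed.exists_root _ hd
    refine ⟨y, ?_⟩
    have h3 : y ^ 2 + y + iO thL = 0 := by
      rw [Polynomial.IsRoot.def] at hy
      simpa using hy
    linear_combination h3 - iO thL * h2
  obtain ⟨ρ, hρ⟩ := LEX_rho hLA2 ys (hys.trans hiO)
  refine ⟨ys, hys, ?_⟩
  intro n e he
  obtain ⟨α₁, hα₁, hα₂⟩ := hLA1 n
  let α₀ : Om ≃+* Om := IsAlgClosure.equivOfEquiv Om Om α₁
  have hα₀ : ∀ x : LS kk, α₀ (algebraMap (LS kk) Om x) = algebraMap (LS kk) Om (α₁ x) :=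
    fun x => IsAlgClosure.equivOfEquiv_algebraMap Om Om α₁ x
  have hc : ∀ c : kk, algebraMap kk Om c = algebraMap (LS kk) Om (LS.C c) := fun c =>
    IsScalarTower.algebraMap_apply kk (LS kk) Om c
  have hz : ∀ z : Lam, α₀ (iO z) = iO z := by
    intro z
    show α₀ (algebraMap (LS kk) Om (mp (algebraMap (ZMod 2) kk) (z : LS (ZMod 2)))) =
      algebraMap (LS kk) Om (mp (algebraMap (ZMod 2) kk) (z : LS (ZMod 2)))
    rw [hα₀, hα₂]
  have hC : ∀ c : kk, ∃ c' : kk, α₀ (algebraMap kk Om c) = algebraMap kk Om c' ∧ c' ^ (4 ^ n) = c := by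
    intro c
    obtain ⟨c', h1, h3⟩ := hα₁ c
    refine ⟨c', ?_, h3⟩
    rw [hc, hα₀, h1, ← hc]
  have hroot : (α₀ ys) ^ 2 + α₀ ys = ys ^ 2 + ys := by
    rw [← map_pow, ← map_add, hys, hz]
  have hρz : ∀ z : Lam, ρ (iO z) = iO z := by
    intro z
    exact ρ.commutes _
  have hρc : ∀ c : kk, ρ (algebraMap kk Om c) = algebraMap kk Om c := by
    intro c
    rw [hc]
    exact ρ.commutes _
  have hcomp : ∀ e' : Om, α₀ ys = ys + e' → ∃ α : Om ≃+* Om,
      (∀ c : kk, ∃ c' : kk, α (algebraMap kk Om c) = algebraMap kk Om c' ∧ c' ^ (4 ^ n) = c) ∧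
      (∀ z : Lam, α (iO z) = iO z) ∧ α ys = ys + 1 + ρ e' := by
    intro e' he'
    refine ⟨α₀.trans ρ.toRingEquiv, ?_, ?_, ?_⟩
    · intro c
      obtain ⟨c', h1, h3⟩ := hC c
      refine ⟨c', ?_, h3⟩
      show ρ (α₀ (algebraMap kk Om c)) = _
      rw [h1, hρc]
    · intro z
      show ρ (α₀ (iO z)) = _
      rw [hz, hρz]
    · show ρ (α₀ ys) = _
      rw [he', map_add, hρ]
  rcases LEX_two e _ _ hroot with h | h
  · rcases he with rfl | rfl
    · exact ⟨α₀, hC, hz, by rw [h, add_zero]⟩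
    · obtain ⟨α, h3, h4, h5⟩ := hcomp 0 (by rw [h, add_zero])
      exact ⟨α, h3, h4, by rw [h5, map_zero, add_zero]⟩
  · rcases he with rfl | rfl
    · obtain ⟨α, h3, h4, h5⟩ := hcomp 1 h
      refine ⟨α, h3, h4, ?_⟩
      rw [h5, map_one]
      linear_combination h2
    · exact ⟨α₀, hC, hz, h⟩

end

end MX
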